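import Pool.Agent.helper23.CU.Spec

/-!
# Project cu, module PB: the probability that a given set of edges is broken
-/

open Finset Filter Topology

namespace CU

theorem PB_factor {d n : ℕ} [NeZero n] (β : ℝ) (F : Finset (Edge d n)) (e : Edge d n) (he : e ∉ F)
    (σ : Conf d n) :
    Real.exp (-2 * β * ((brk σ ∩ insert e F).card : ℝ)) =
      Real.exp (-2 * β * ((brk σ ∩ F).card : ℝ)) * ((1 + Real.exp (-2 * β)) / 2) +
      (1 - Real.exp (-2 * β)) / 2 *
        (Real.exp (-2 * β * ((brk σ ∩ F).card : ℝ)) * (sg (σ e.1) * sg (σ (e.1 + ev e.2)))) := by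
  by_cases hb : e ∈ brk σ
  · have h1 : brk σ ∩ insert e F = insert e (brk σ ∩ F) := Finset.inter_insert_of_mem hb
    have h2 : e ∉ brk σ ∩ F := fun h => he (Finset.mem_inter.mp h).2
    have h3 : sg (σ e.1) * sg (σ (e.1 + ev e.2)) = -1 := by
      have h4 : σ e.1 ≠ σ (e.1 + ev e.2) := (Finset.mem_filter.mp hb).2
      unfold sg
      cases h5 : σ e.1 <;> cases h6 : σ (e.1 + ev e.2) <;> rw [h5, h6] at h4 <;> simp at h4 ⊢
    rw [h1, Finset.card_insert_of_notMem h2, h3]
    push_cast
    rw [mul_add, mul_one, Real.exp_add]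
    ring
  · have h1 : brk σ ∩ insert e F = brk σ ∩ F := Finset.inter_insert_of_notMem hb
    have h3 : sg (σ e.1) * sg (σ (e.1 + ev e.2)) = 1 := by
      have h4 : σ e.1 = σ (e.1 + ev e.2) := by
        by_contra h
        exact hb (Finset.mem_filter.mpr ⟨Finset.mem_univ _, h⟩)
      unfold sg
      rw [← h4]
      cases σ e.1 <;> simp
    rw [h1, h3]
    ring

theorem PB_step (h : GR_stmt) {d n : ℕ} [NeZero n] {β : ℝ} (hβ : 0 ≤ β) (F : Finset (Edge d n))
    (e : Edge d n) (he : e ∉ F) :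
    (∑ σ : Conf d n, Real.exp (-2 * β * ((brk σ ∩ F).card : ℝ))) * ((1 + Real.exp (-2 * β)) / 2) ≤
      ∑ σ : Conf d n, Real.exp (-2 * β * ((brk σ ∩ insert e F).card : ℝ)) := by
  rw [Finset.sum_congr rfl (fun σ _ => PB_factor β F e he σ), Finset.sum_add_distrib,
    ← Finset.sum_mul, ← Finset.mul_sum]
  have h1 := h d n β hβ F e.1 (e.1 + ev e.2)
  have h2 : 0 ≤ (1 - Real.exp (-2 * β)) / 2 := by
    have : Real.exp (-2 * β) ≤ 1 := Real.exp_le_one_iff.mpr (by linarith)
    linarith
  have h3 := mul_nonneg h2 h1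
  linarith

theorem PB_iter (h : GR_stmt) {d n : ℕ} [NeZero n] {β : ℝ} (hβ : 0 ≤ β) (G : Finset (Edge d n))
    (F : Finset (Edge d n)) : Disjoint F G →
    (∑ σ : Conf d n, Real.exp (-2 * β * ((brk σ ∩ G).card : ℝ))) *
        ((1 + Real.exp (-2 * β)) / 2) ^ F.card ≤
      ∑ σ : Conf d n, Real.exp (-2 * β * ((brk σ ∩ (F ∪ G)).card : ℝ)) := by
  induction F using Finset.induction_on with
  | empty => intro _; simp
  | insert e F he ih =>
    intro hd
    rw [Finset.disjoint_insert_left] at hd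
    have h1 := ih hd.2
    have h2 := PB_step h hβ (F ∪ G) e (by
      rw [Finset.mem_union]
      rintro (h' | h')
      · exact he h'
      · exact hd.1 h')
    rw [Finset.insert_union, Finset.card_insert_of_notMem he, pow_succ, ← mul_assoc]
    have h3 : (0 : ℝ) ≤ (1 + Real.exp (-2 * β)) / 2 := by positivity
    exact (mul_le_mul_of_nonneg_right h1 h3).trans h2

theorem PB (h : GR_stmt) : PB_stmt := by
  intro d n _ β hβ F
  have ha : 0 < Real.exp (-2 * β) := Real.exp_pos _
  have h1 := PB_iter h hβ (univ \ F) F disjoint_sdiff_self_right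
  have hun : F ∪ (univ \ F) = univ := by
    ext x
    simp
  rw [hun] at h1
  have hZ : ∑ σ : Conf d n, Real.exp (-2 * β * ((brk σ ∩ univ).card : ℝ)) =
      ∑ σ : Conf d n, W β σ := by
    refine Finset.sum_congr rfl fun σ _ => ?_
    rw [Finset.inter_univ]
    rfl
  rw [hZ] at h1
  have hZpos : 0 < ∑ σ : Conf d n, W β σ :=
    Finset.sum_pos (fun σ _ => Real.exp_pos _) Finset.univ_nonempty
  have hnum : ∑ σ : Conf d n, W β σ * ({σ : Conf d n | F ⊆ brk σ}.indicator (fun _ => (1 : ℝ))) σ ≤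
      Real.exp (-2 * β) ^ F.card *
        ∑ σ : Conf d n, Real.exp (-2 * β * ((brk σ ∩ (univ \ F)).card : ℝ)) := by
    rw [Finset.mul_sum]
    refine Finset.sum_le_sum fun σ _ => ?_
    by_cases hF : F ⊆ brk σ
    · rw [Set.indicator_of_mem (show σ ∈ {σ : Conf d n | F ⊆ brk σ} from hF), mul_one]
      have hc : ((brk σ).card : ℝ) = F.card + ((brk σ ∩ (univ \ F)).card : ℝ) := by
        have e1 : brk σ ∩ (univ \ F) = brk σ \ F := by
          ext x
          simp
        rw [e1]
        have e2 := Finset.card_sdiff_add_card_eq_card hF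
        have e3 : ((brk σ \ F).card : ℝ) + F.card = (brk σ).card := by exact_mod_cast e2
        linarith
      unfold W
      rw [hc, mul_add, Real.exp_add, ← Real.exp_nat_mul]
      apply le_of_eq
      congr 2
      ring
    · rw [Set.indicator_of_notMem (show σ ∉ {σ : Conf d n | F ⊆ brk σ} from hF), mul_zero]
      positivity
  unfold PrE Ex
  rw [div_le_iff₀ hZpos]
  refine hnum.trans ?_
  have hb : 0 < ((1 + Real.exp (-2 * β)) / 2) ^ F.card := by positivity
  have e4 : (2 * Real.exp (-2 * β) / (1 + Real.exp (-2 * β))) ^ F.card =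
      Real.exp (-2 * β) ^ F.card / ((1 + Real.exp (-2 * β)) / 2) ^ F.card := by
    rw [← div_pow]
    congr 1
    field_simp
  rw [e4, div_mul_eq_mul_div, le_div_iff₀ hb, mul_assoc]
  exact mul_le_mul_of_nonneg_left h1 (by positivity)

end CU
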